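import Pool.Agent.H447R3.KuB

/-!
# The sign conjecture modulo numerical equivalence

Let `X` be a smooth proper variety of dimension `d` and `W` a Weil cohomology theory, for example
crystalline cohomology with coefficients in `K = W(k)[1/p]`. The even Künneth projector `π⁺` of `X`
is algebraic if and only if there is a cycle `z` of codimension `d` on `X × X` which has the same
intersection numbers as `π⁺` with all cycles of codimension `d`, and which is a projector up to
numerical equivalence. It is not assumed that homological and numerical equivalence agree.
-/

open Pool.Agent.H914 Pool.Agent.H447

universe u v

namespace Pool.Agent.Results.MP_fd35e1_ag.NumericalSignProjector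

/-- **The even Künneth projector of `X` is algebraic if and only if there is a cycle `z` with the
same intersection numbers such that `z ∘ z` is numerically equivalent to `z`.** -/
theorem result {k : Type u} [Field k] {𝒱 : VarClass k} {ops : CycleOps 𝒱}
    (W : WeilCohomology.{u, v} ops) (X : 𝒱.Obj) : SignStd W X ↔ SignNum W X :=
  sign_iff_num

end Pool.Agent.Results.MP_fd35e1_ag.NumericalSignProjector
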