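import Pool.Agent.N178.Ss4

/-!
# The Tate conjecture for open subvarieties of `X × X` and semisimplicity

For `G : SquareAction W X` (a group acting on the cohomology of `X` and of `X × X` like the Galois
group of a finitely generated field) there is an open subvariety `U₀` of `X × X`, whose complement
has codimension at least `dim X`, such that the Tate conjecture in codimension `dim X` for `U₀`
implies the one for `X × X`, and, in positive characteristic (that is, if a normal subgroup `N` with
abelian quotient acts semisimply, as the geometric Galois group does by Deligne's theorem), it is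
equivalent to the Tate conjecture for all these open subvarieties, to the Tate conjecture for
`X × X` together with the semisimplicity of the cohomology of `X`, and to the Tate conjecture for
`X × X` together with the standard conjecture D in codimension `dim X` on `X × X`.
-/

open CategoryTheory AlgebraicGeometry

universe u v w

namespace Pool.Agent.Results.MP_2a05c8_ag.OpenTateSemisimplicity

open Pool.Agent.H914 Pool.Agent.H914.VarClass Pool.Agent.H914.VarClass.Obj
  Pool.Agent.H914.WeilCohomology Pool.Agent.R936 Pool.Agent.H447 Pool.Agent.N178.Ss

theorem result {k : Type u} [Field k] {𝒱 : VarClass k} {ops : CycleOps 𝒱}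
    (W : WeilCohomology.{u, v} ops) (X : 𝒱.Obj) :
    ∃ U₀ : (X.prod X).V.X.Opens, SmallComplement (X.prod X) X.dim U₀ ∧
      ∀ G : SquareAction.{u, v, w} W X,
        (TateOpen G U₀ → TateSquare G) ∧
        (TateSquare G → (∀ i, SemisimpleIn G ⊤ i) → HomEqNumIn W (X.prod X) X.dim) ∧
        (TateSquare G → HomEqNumIn W (X.prod X) X.dim → ∀ U, TateOpen G U) ∧
        ∀ N : Subgroup G.Γ, commutator G.Γ ≤ N → (∀ i, SemisimpleIn G N i) →
          List.TFAE [
            TateOpen G U₀,
            ∀ U, SmallComplement (X.prod X) X.dim U → TateOpen G U,
            TateSquare G ∧ ∀ i, SemisimpleIn G ⊤ i,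
            TateSquare G ∧ HomEqNumIn W (X.prod X) X.dim] :=
  open_tate_main W X

end Pool.Agent.Results.MP_2a05c8_ag.OpenTateSemisimplicity
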