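import Mathlib
import Pool.Agent.N178.HX.Parts
import Pool.Agent.N178.AJ.Main

/-!
# The injectivity of the Abel–Jacobi map for motives of abelian varieties with small Hodge level

Let `K` be a number field, embedded into `ℂ`, and `X` an abelian variety over `K` such that the complex
abelian variety `X` (`AV`, up to isogeny) belongs to one of the following two classes.

(a) All simple factors of `X` are factors of an abelian variety `A` of dimension at most three (for
instance `X` is a power of `A`).

(b) There are finitely many CM types `T k`, divided into independent blocks, such that for each block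
all CM types of the CM fields in this block are conjugate, or the total dimension of the block is at
most three, or the block consists of all CM types of a Galois CM field of degree at most six; and
each simple factor of `X` is a factor of one of the abelian varieties with the CM types `T k`, or has
no complex multiplication and belongs to one of the classes in `Typ` below (of any dimension), where
an imaginary quadratic field which acts with two different multiplicities on the tangent space must
be the field of an elliptic curve of the first kind (fourfolds with such an action are excluded).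

Let `M = (X, p, n)` be a direct summand of a Tate twist of the Chow motive of `X`. For example, `M` can
be the motive of a smooth projective variety which is the image of `X`, or the image of a product of
curves of positive genus such that the product of their Jacobians is `X`.

The theorem: suppose that the Hodge numbers `h^(s, t)` of `(X, p)` with `|s - t| ≥ 2` and
`min (s, t) ≤ c` are zero. Then the `p`-adic Abel–Jacobi map, for all primes `p`, is injective on the
homologically trivial cycles of dimension `i ≤ c` in `(X, p)`, that is, on `CH(M)^0` for `M = (X, p, n)`,
`n ≥ dim X - c`. (By the theorem the base change to `ℂ` of a cycle in the kernel is zero, and the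
Chow groups of `M` with rational coefficients inject into those of the base change to `ℂ`.) In
particular, if the Hodge numbers `h^(s, t)` of `M` with `|s - t| ≥ 2` are zero then the Abel–Jacobi map
of `(X, p, n)` is injective for all `n`.

The same theorem holds for the complex Abel–Jacobi map, and cycles over any algebraically closed
subfield of `ℂ` (`AbelJacobi` in `Pool.Agent.N178.AJ.Defs`).

The structures `ChowTheory` (`Pool.Agent.N178.BL.Defs`) and `AbelJacobi` collect the known properties
of the Chow groups of abelian varieties which are used: the formal properties of correspondences;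
Kimura's theorem that homologically trivial endomorphisms of the motive are nilpotent; the
semisimplicity of the category of motives of abelian varieties modulo homological equivalence
(Jannsen, Lieberman); the algebraic classes are a system `Sys` (Lefschetz, Markman); the
algebraicity of the isomorphisms `H^n(Y, ℚ) ≅ H_n(Y, ℚ)` given by a polarization and of the Künneth
components (Lieberman); the functoriality of the Abel–Jacobi map; `CH_i(h_1(Y)) = 0` for `i > 0` and
the injectivity of the Abel–Jacobi map on `CH_0(h_1(Y))` (Beauville, Mordell–Weil); and the
specialization of correspondences.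

The proof. By the generalized Hodge conjecture for `X`
(`Pool.Agent.Results.MP_90e98f_ag.PowersAndCMFields`) and the semisimplicity, `p` is homologically
equivalent to a sum of compositions of correspondences of the degrees `-(c + 1)` and `c + 1`, and of
compositions `κ ∘ π ∘ Γ` of correspondences of the degrees `-k` and `k` with the projector `π` to
`H^1(Y)`, for abelian varieties `Y`. By specialization one may suppose that they are defined over the
algebraic closure of `K`. They act as zero on the kernel of the Abel–Jacobi map in dimension at most
`c`. Now the theorem follows from the nilpotence.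
-/

namespace Pool.Agent.Results.MP_386e47_ag.SmallHodgeLevel

open Module NumberField Pool.Agent.Y90 Pool.Agent.R915
open Pool.Agent.H204R3.CM (IsCMType)
open Pool.Agent.W547.KB (CMPair CMAV single)
open Pool.Agent.W547.LN (SameType)
open Pool.Agent.N830.HC (av)
open Pool.Agent.N178.BL (ChowTheory)
open Pool.Agent.N178.AJ (AbelJacobi Small)

/-- The classes of simple abelian varieties: dimension at most three; or the endomorphism algebra is
an imaginary quadratic field of signature `(p, q)` with `p, q ≤ 3` (and trivial discriminant for
`(3, 3)`); or Albert type I or II of relative dimension at most three; or dimension five and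
endomorphism algebra `ℚ`; or Albert type I or II, any dimension, with the largest possible Hodge
group. -/
def Typ (Y : AV) : Prop :=
  finrank ℚ Y.H ≤ 6 ∨ QuadMult Y ∨ RealMult Y ∨ FiveDim Y ∨ FullHodge Y

/-- Each simple factor `Y` of `X` is a factor of an abelian variety with one of the CM types `T k`; or
it has no complex multiplication, belongs to one of the classes in `Typ`, and if `ℚ(√-d)` acts on `Y`
with two different multiplicities then `Y` is not a fourfold and the elliptic curve `E` with complex
multiplication by this field is a factor of an abelian variety with one of the CM types `T k`. -/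
def HasFactorsIn {K : Type} (T : K → CMPair) (X : AV) : Prop :=
  ∀ Y, IsFactor Y X → (∃ k, IsFactor Y (av (single (T k)))) ∨ (¬ HasCMult Y ∧ Typ Y ∧
    ∀ d : ℚ, Unbalanced Y d → finrank ℚ Y.H ≠ 8 ∧
      ∃ k E, IsFactor E (av (single (T k))) ∧ finrank ℚ E.H = 2 ∧ Unbalanced E d)

/-- All CM types of the CM fields in the block `B` are conjugate, simultaneously: for each family of
CM types `Ψ k` of the CM fields there is an automorphism of `ℂ` which takes `Ψ k` to the CM type
`T k`, for all `k` in `B`. -/
def AllConjugate {K : Type} (T : K → CMPair) (B : Set K) : Prop :=
  ∀ Ψ : ∀ k, Set ((T k).E →+* ℂ), (∀ k, IsCMType (Ψ k)) →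
    ∃ σ : ℂ ≃+* ℂ, ∀ k ∈ B, ∀ φ, φ ∈ Ψ k ↔ (σ : ℂ →+* ℂ).comp φ ∈ (T k).Φ

/-- The CM fields of the block `B` are subfields of the Galois CM field `L`, and all CM types of `L`
occur. -/
def AllTypes {K : Type} (T : K → CMPair) (B : Set K) (L : Type) [Field L] [NumberField L]
    [IsCMField L] : Prop :=
  IsGalois ℚ L ∧ (∀ k ∈ B, Nonempty ((T k).E →+* L)) ∧
    ∀ (Φ : Set (L →+* ℂ)) (hΦ : IsCMType Φ), ∃ k ∈ B, SameType ⟨L, Φ, hΦ⟩ (T k)

/-- The total dimension of the block is at most three. -/
def DimAtMostThree {K : Type} (T : K → CMPair) (B : Set K) : Prop :=
  ∃ F : Finset K, (∀ k, k ∈ F ↔ k ∈ B) ∧ ∑ k ∈ F, finrank ℚ (T k).E ≤ 6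

/-- The blocks `{k | b k = j}` are independent: automorphisms of `ℂ` can be prescribed separately on
the complex embeddings of the CM fields of the different blocks. (The composita of the Galois
closures of the fields of the different blocks are linearly disjoint over `ℚ`.) -/
def IsIndependent {K J : Type} (T : K → CMPair) (b : K → J) : Prop :=
  ∀ τ : J → (ℂ ≃+* ℂ), ∃ σ : ℂ ≃+* ℂ, ∀ k (φ : (T k).E →+* ℂ),
    (σ : ℂ →+* ℂ).comp φ = (τ (b k) : ℂ →+* ℂ).comp φ

/-- The condition on the block `B`. -/
def IsGoodBlock {K : Type} (T : K → CMPair) (B : Set K) : Prop :=
  AllConjugate T B ∨ (∃ (L : Type) (_ : Field L) (_ : NumberField L) (_ : IsCMField L),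
    AllTypes T B L ∧ finrank ℚ L ≤ 6) ∨ DimAtMostThree T B

/-- The classes (a) and (b) of abelian varieties. -/
def IsGood (X : AV) : Prop :=
  (∃ A : AV, finrank ℚ A.H ≤ 6 ∧ ∀ Y, IsFactor Y X → IsFactor Y A) ∨
    ∃ (K J : Type) (_ : Fintype K) (T : K → CMPair) (b : K → J), IsIndependent T b ∧
      (∀ j, IsGoodBlock T {k | b k = j}) ∧ HasFactorsIn T X

/-- **The Abel–Jacobi map is injective** on the cycles of dimension `i ≤ c` of the direct summand
`(X, p)` of the Chow motive of `X`, if the Hodge numbers `h^(s, t)` of `(X, p)` with `|s - t| ≥ 2` and
`min (s, t) ≤ c` are zero (`Small p c`). -/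
theorem result (C : ChowTheory) (O : AV) (A : AbelJacobi C O) (X : AV) (hX : IsGood X)
    (hdef : A.Def X) (p : C.Co X X) (hp : C.IsMotive p) (c : ℕ) (hc : Small p c) (i : ℤ)
    (hi : i ≤ c) (z : C.Co O X) (hz : A.Triv i z) (hpz : C.o p z = z) : z = 0 := by
  have hG : Pool.Agent.N178.HX.GHC C.alg X := by
    rcases hX with ⟨A, hA, hX⟩ | ⟨K, J, _, T, b, hb, hj, hX⟩
    · exact Pool.Agent.N178.HX.pow3 Pool.Agent.N178.HX.t_MAINT Pool.Agent.N178.HX.t_COV
        Pool.Agent.N178.HX.t_POW A X hA hX C.alg
    · exact Pool.Agent.N178.HX.uncond' Pool.Agent.N178.HX.t_MAINT Pool.Agent.N178.HX.t_COV T b hb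
        hj C.alg X hX
  exact Pool.Agent.N178.AJ.main hG hdef hp hc hi hz hpz

end Pool.Agent.Results.MP_386e47_ag.SmallHodgeLevel
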